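import Mathlib
import Pool.Agent.H33.FreeLin

/-!
The free topological linear space over the discrete reals on a metrizable space is paracompact.
-/

open Set Topology

namespace Pool.Agent.Results.MP_f94ac9_gt.FreeParacompact

universe u v

/-- `i : X → L` makes `L` the free topological linear space over the discrete reals on `X`:
`i` is a topological embedding onto a Hamel basis, and every continuous map into a Hausdorff
real vector space with continuous addition and continuous multiplication by each fixed scalar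
extends uniquely to a continuous linear map. -/
def IsFreeLinear {X : Type u} [TopologicalSpace X] {L : Type v} [AddCommGroup L] [Module ℝ L]
    [TopologicalSpace L] (i : X → L) : Prop :=
  IsEmbedding i ∧ LinearIndependent ℝ i ∧ Submodule.span ℝ (range i) = ⊤ ∧
    ∀ (E : Type v) [AddCommGroup E] [Module ℝ E] [TopologicalSpace E] [T2Space E]
      [ContinuousAdd E] [ContinuousConstSMul ℝ E] (f : X → E), Continuous f →
      ∃! F : L →L[ℝ] E, ∀ x, F (i x) = f x

theorem result (X : Type u) [TopologicalSpace X] [TopologicalSpace.MetrizableSpace X]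
    (L : Type v) [AddCommGroup L] [Module ℝ L] [TopologicalSpace L] [T2Space L]
    [ContinuousAdd L] [ContinuousConstSMul ℝ L] (i : X → L) (hi : IsFreeLinear i) :
    ParacompactSpace L := by
  rename_i τ hT hA hS
  obtain ⟨hemb, hli, hsp, huniv⟩ := hi
  let m : MetricSpace X := TopologicalSpace.metrizableSpaceMetric X
  let b : Module.Basis X ℝ L := Module.Basis.mk hli hsp.ge
  have hb : (b : X → L) = i := Module.Basis.coe_mk hli hsp.ge
  refine Pool.Agent.H33.FreeLin.paracompact_free b (hb ▸ hemb.continuous) ?_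
  intro σ hA' hS' hc
  rw [hb] at hc
  have h2 : @T2Space L (τ ⊓ σ) := t2Space_antitone inf_le_left hT
  have h6 : @ContinuousConstSMul ℝ L (τ ⊓ σ) _ :=
    @ContinuousConstSMul.mk ℝ L (τ ⊓ σ) _ fun r => (continuous_inf_rng (t₂ := τ) (t₃ := σ)).2
      ⟨continuous_inf_dom_left (t₁ := τ) (t₂ := σ) (t₃ := τ) (@continuous_const_smul ℝ L τ _ hS r),
        continuous_inf_dom_right (t₁ := τ) (t₂ := σ) (t₃ := σ) (@continuous_const_smul ℝ L σ _ hS' r)⟩
  have h7 : Continuous[_, τ] i := @IsEmbedding.continuous X L i _ τ hemb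
  obtain ⟨F, hF, -⟩ := @huniv L _ _ (τ ⊓ σ) h2 (continuousAdd_inf hA hA')
    h6 i (continuous_inf_rng.2 ⟨h7, hc⟩)
  have h3 : (@ContinuousLinearMap.toLinearMap ℝ ℝ _ _ _ L τ _ L (τ ⊓ σ) _ _ _ F) =
      LinearMap.id := b.ext fun x => by
    rw [hb]
    exact hF x
  have h4 : Continuous[τ, τ ⊓ σ] id := by
    have h5 := @ContinuousLinearMap.cont ℝ ℝ _ _ _ L τ _ L (τ ⊓ σ) _ _ _ F
    rw [h3] at h5
    exact h5
  exact (continuous_id_iff_le.1 h4).trans inf_le_right

end Pool.Agent.Results.MP_f94ac9_gt.FreeParacompact
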